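import Pool.Agent.H31.BOU.Targets1
import Pool.Agent.H31.BOU.Targets2

/-!
Row TRN of the board bou_modules: transitional nodes of one piece, at most two scales on every path.
-/

namespace Pool.Agent.H78.BOU

open Finset Pool.Agent.H31.BOU

/-- The node of scale `j` on the path of the pair `(a, b)`. -/
theorem path_step (a b j : ℕ) :
    ∃ c : ℤ, 0 ≤ c ∧ c ≤ 2 ∧ ((a / 2 ^ j : ℕ) : ℤ) + ((b / 2 ^ j : ℕ) : ℤ) =
      2 * (((a / 2 ^ (j + 1) : ℕ) : ℤ) + ((b / 2 ^ (j + 1) : ℕ) : ℤ)) + c := by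
  have ha : a / 2 ^ (j + 1) = a / 2 ^ j / 2 := by
    rw [pow_succ, Nat.div_div_eq_div_mul]
  have hb : b / 2 ^ (j + 1) = b / 2 ^ j / 2 := by
    rw [pow_succ, Nat.div_div_eq_div_mul]
  refine ⟨(((a / 2 ^ j) % 2 + (b / 2 ^ j) % 2 : ℕ) : ℤ), by positivity, ?_, ?_⟩
  · have h1 : (a / 2 ^ j) % 2 < 2 := Nat.mod_lt _ (by norm_num)
    have h2 : (b / 2 ^ j) % 2 < 2 := Nat.mod_lt _ (by norm_num)
    omega
  · rw [ha, hb]
    omega

theorem near_path (hM : T_MON) (C i : ℕ) (m : ℤ) (a b j : ℕ) (d : ℕ) :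
    near C i m (j + d) (((a / 2 ^ (j + d) : ℕ) : ℤ) + ((b / 2 ^ (j + d) : ℕ) : ℤ)) →
      near C i m j (((a / 2 ^ j : ℕ) : ℤ) + ((b / 2 ^ j : ℕ) : ℤ)) := by
  induction d with
  | zero => intro h; exact h
  | succ d ih =>
    intro h
    apply ih
    obtain ⟨c, hc0, hc2, hc⟩ := path_step a b (j + d)
    rw [hc]
    exact hM.1 C i m (j + d) _ c hc0 hc2 h

theorem path_lo (a j : ℕ) : ((a / 2 ^ j : ℕ) : ℤ) * 2 ^ j ≤ a := by
  have h : a / 2 ^ j * 2 ^ j ≤ a := Nat.div_mul_le_self a (2 ^ j)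
  exact_mod_cast h

theorem path_hi (a j : ℕ) : (a : ℤ) < (((a / 2 ^ j : ℕ) : ℤ) + 1) * 2 ^ j := by
  have h : a < (a / 2 ^ j + 1) * 2 ^ j := by
    have := Nat.lt_mul_div_succ a (show 0 < 2 ^ j by positivity)
    calc a < 2 ^ j * (a / 2 ^ j + 1) := this
      _ = (a / 2 ^ j + 1) * 2 ^ j := Nat.mul_comm _ _
  exact_mod_cast h

/-- A long node on the path of `(a, b)`: the sum `a + b` is in the block. -/
theorem long_mem (r i : ℕ) (m : ℤ) (a b j : ℕ) (hr : 2 ≤ r)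
    (h : long r i m j (((a / 2 ^ j : ℕ) : ℤ) + ((b / 2 ^ j : ℕ) : ℤ))) :
    m * 2 ^ i ≤ (a : ℤ) + b ∧ (a : ℤ) + b < (m + 1) * 2 ^ i := by
  obtain ⟨h1, h2⟩ := h
  have hr' : (2 : ℤ) ≤ r := by exact_mod_cast hr
  have hp : (0 : ℤ) < 2 ^ j := by positivity
  have ha := path_lo a j
  have hb := path_lo b j
  have ha' := path_hi a j
  have hb' := path_hi b j
  constructor <;> nlinarith

/-- Few elements of `b` for every `a`. -/
theorem count_b (i J : ℕ) (m : ℤ) (a : ℕ) :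
    ((range (2 ^ J)).filter (fun b : ℕ => m * 2 ^ i ≤ (a : ℤ) + b ∧ (a : ℤ) + b < (m + 1) * 2 ^ i)).card
      ≤ 2 ^ i := by
  have h : ((range (2 ^ J)).filter
      (fun b : ℕ => m * 2 ^ i ≤ (a : ℤ) + b ∧ (a : ℤ) + b < (m + 1) * 2 ^ i)).card ≤
      (Ico (m * 2 ^ i) ((m + 1) * 2 ^ i)).card := by
    apply Finset.card_le_card_of_injOn (fun b : ℕ => (a : ℤ) + b)
    · intro b hb
      have hb' := (Finset.mem_filter.1 (Finset.mem_coe.1 hb)).2
      exact Finset.mem_coe.2 (Finset.mem_Ico.2 hb')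
    · intro b _ b' _ hbb
      have : (a : ℤ) + b = (a : ℤ) + b' := hbb
      omega
  refine h.trans (le_of_eq ?_)
  rw [Int.card_Ico]
  have : (m + 1) * 2 ^ i - m * 2 ^ i = ((2 ^ i : ℕ) : ℤ) := by
    push_cast
    ring
  rw [this, Int.toNat_natCast]

/-- A finite set of naturals with gaps at most one has at most two elements. -/
theorem card_le_two (S : Finset ℕ) (h : ∀ x ∈ S, ∀ y ∈ S, x < y → y < x + 2) : S.card ≤ 2 := by
  rcases S.eq_empty_or_nonempty with h0 | hne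
  · rw [h0]; simp
  · have hsub : S ⊆ {S.min' hne, S.min' hne + 1} := by
      intro y hy
      have h1 := S.min'_le y hy
      have h2 := S.min'_mem hne
      rw [Finset.mem_insert, Finset.mem_singleton]
      rcases h1.lt_or_eq with h3 | h3
      · have := h _ h2 y hy h3
        right; omega
      · left; exact h3.symm
    exact (Finset.card_le_card hsub).trans Finset.card_le_two

open Classical in
theorem pf_TRN (hN : T_SQN) (hM : T_MON) : T_TRN := by
  intro θ _ C r x Q β J i m hx hr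
  -- the property of a node
  set W : ℕ → ℤ → Prop := fun j κ => long r i m j κ ∧ far C (1 / 2 * x) Q β j κ ∧
    ¬ far C (3 / 2 * x) Q β j κ with hW
  have hscale : ∀ j ∈ range (J + 1), (4 : ℝ) ^ j * ∑ p ∈ range (2 ^ (J - j)),
      ∑ s ∈ range (2 ^ (J - j)), (if long r i m j ((p : ℤ) + s) ∧
        far C (1 / 2 * x) Q β j ((p : ℤ) + s) ∧
        ¬ far C (3 / 2 * x) Q β j ((p : ℤ) + s) then (1 : ℝ) else 0) =
      ∑ a ∈ range (2 ^ J), ∑ b ∈ range (2 ^ J),
        (if W j (((a / 2 ^ j : ℕ) : ℤ) + ((b / 2 ^ j : ℕ) : ℤ)) then (1 : ℝ) else 0) := by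
    intro j hj
    have hj' : j ≤ J := Nat.lt_succ_iff.1 (Finset.mem_range.1 hj)
    have := hN J j (fun p s => if W j ((p : ℤ) + s) then (1 : ℝ) else 0) hj'
    exact this.symm
  rw [Finset.sum_congr rfl hscale, Finset.sum_comm]
  have hpair : ∀ a b : ℕ, ∑ j ∈ range (J + 1),
      (if W j (((a / 2 ^ j : ℕ) : ℤ) + ((b / 2 ^ j : ℕ) : ℤ)) then (1 : ℝ) else 0) ≤
      2 * (if m * 2 ^ i ≤ (a : ℤ) + b ∧ (a : ℤ) + b < (m + 1) * 2 ^ i then (1 : ℝ) else 0) := by
    intro a b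
    by_cases hab : m * 2 ^ i ≤ (a : ℤ) + b ∧ (a : ℤ) + b < (m + 1) * 2 ^ i
    · rw [if_pos hab, Finset.sum_boole, mul_one]
      have : ((range (J + 1)).filter
          (fun j => W j (((a / 2 ^ j : ℕ) : ℤ) + ((b / 2 ^ j : ℕ) : ℤ)))).card ≤ 2 := by
        apply card_le_two
        intro j1 h1 j3 h3 h13
        by_contra hcon
        have h1W := (Finset.mem_filter.1 h1).2
        have h3W := (Finset.mem_filter.1 h3).2
        obtain ⟨-, hf1, -⟩ := h1W
        obtain ⟨-, -, hf3⟩ := h3W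
        rw [far] at hf3
        push Not at hf3
        obtain ⟨u, hu, hle⟩ := hf3
        obtain ⟨d, hd⟩ : ∃ d, j3 = j1 + d := ⟨j3 - j1, by omega⟩
        subst hd
        have hn := near_path hM C (Q.sc u) (Q.mm u) a b j1 d hu
        have hlt := hf1 u hn
        have hd2 : 2 ≤ d := by omega
        have hpow : (4 : ℝ) * 2 ^ j1 ≤ 2 ^ (j1 + d) := by
          have : (2 : ℝ) ^ (j1 + 2) ≤ 2 ^ (j1 + d) :=
            pow_le_pow_right₀ (by norm_num) (by omega)
          calc (4 : ℝ) * 2 ^ j1 = 2 ^ (j1 + 2) := by rw [pow_add]; ring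
            _ ≤ _ := this
        have hp1 : (0 : ℝ) < 2 ^ j1 := by positivity
        have h4 : 3 / 2 * x / 2 ^ (j1 + d) ≤ 3 / 2 * x / (4 * 2 ^ j1) := by
          apply div_le_div_of_nonneg_left (by positivity) (by positivity) hpow
        have h5 : 3 / 2 * x / (4 * 2 ^ j1) = (3 / 4) * (1 / 2 * x / 2 ^ j1) := by
          field_simp
        have h6 : 0 < 1 / 2 * x / 2 ^ j1 := by positivity
        linarith
      exact_mod_cast this
    · rw [if_neg hab, mul_zero]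
      apply le_of_eq
      apply Finset.sum_eq_zero
      intro j _
      rw [if_neg]
      intro hWj
      exact hab (long_mem r i m a b j hr hWj.1)
  calc ∑ a ∈ range (2 ^ J), ∑ j ∈ range (J + 1), ∑ b ∈ range (2 ^ J),
        (if W j (((a / 2 ^ j : ℕ) : ℤ) + ((b / 2 ^ j : ℕ) : ℤ)) then (1 : ℝ) else 0)
      = ∑ a ∈ range (2 ^ J), ∑ b ∈ range (2 ^ J), ∑ j ∈ range (J + 1),
        (if W j (((a / 2 ^ j : ℕ) : ℤ) + ((b / 2 ^ j : ℕ) : ℤ)) then (1 : ℝ) else 0) := by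
        apply Finset.sum_congr rfl
        intro a _
        exact Finset.sum_comm
    _ ≤ ∑ a ∈ range (2 ^ J), ∑ b ∈ range (2 ^ J),
        2 * (if m * 2 ^ i ≤ (a : ℤ) + b ∧ (a : ℤ) + b < (m + 1) * 2 ^ i then (1 : ℝ) else 0) :=
        Finset.sum_le_sum fun a _ => Finset.sum_le_sum fun b _ => hpair a b
    _ ≤ ∑ a ∈ range (2 ^ J), (2 * 2 ^ i : ℝ) := by
        apply Finset.sum_le_sum
        intro a _
        rw [← Finset.mul_sum, Finset.sum_boole]
        have := count_b i J m a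
        have h' : ((((range (2 ^ J)).filter (fun b : ℕ => m * 2 ^ i ≤ (a : ℤ) + b ∧
            (a : ℤ) + b < (m + 1) * 2 ^ i)).card : ℕ) : ℝ) ≤ 2 ^ i := by
          exact_mod_cast this
        linarith
    _ = 2 * 2 ^ i * 2 ^ J := by
        rw [Finset.sum_const, Finset.card_range, nsmul_eq_mul]
        push_cast
        ring

end Pool.Agent.H78.BOU
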