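import Pool.Agent.H31.BOU.Targets2

/-!
Row UNI of the board bou_modules: the union bound over checkpoints.
-/

namespace Pool.Agent.H78.BOU

open Finset Pool.Agent.H31.BOU

theorem uni_range_mul (f : ℕ → ℝ) (m n : ℕ) :
    ∑ a ∈ range (m * n), f a = ∑ p ∈ range m, ∑ c ∈ range n, f (p * n + c) := by
  induction m with
  | zero => simp
  | succ m ih =>
    rw [Nat.succ_mul, Finset.sum_range_add, ih, Finset.sum_range_succ]

theorem uni_range_pow (f : ℕ → ℝ) (j J : ℕ) (hj : j ≤ J) :
    ∑ a ∈ range (2 ^ J), f a = ∑ p ∈ range (2 ^ (J - j)), ∑ c ∈ range (2 ^ j), f (p * 2 ^ j + c) := by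
  have h : 2 ^ J = 2 ^ (J - j) * 2 ^ j := by
    rw [← pow_add]
    congr 1
    omega
  rw [h, uni_range_mul]

/-- The sum over one square, of a nonnegative function of `a + b`. -/
theorem uni_square (g : ℤ → ℝ) (hg : ∀ k, 0 ≤ g k) (j : ℕ) (κ : ℤ) :
    ∑ a ∈ range (2 ^ j), ∑ b ∈ range (2 ^ j), g (κ * 2 ^ j + a + b) ≤
      2 ^ j * ∑ k ∈ Ico (κ * 2 ^ j) ((κ + 2) * 2 ^ j), g k := by
  have h : ∀ a ∈ range (2 ^ j), ∑ b ∈ range (2 ^ j), g (κ * 2 ^ j + a + b) ≤
      ∑ k ∈ Ico (κ * 2 ^ j) ((κ + 2) * 2 ^ j), g k := by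
    intro a ha
    have ha' : (a : ℤ) < 2 ^ j := by exact_mod_cast Finset.mem_range.1 ha
    have hinj : ∀ b ∈ range (2 ^ j), ∀ b' ∈ range (2 ^ j),
        κ * 2 ^ j + (a : ℤ) + (b : ℤ) = κ * 2 ^ j + a + b' → b = b' := by
      intro b _ b' _ h
      have : (b : ℤ) = b' := by linarith
      exact_mod_cast this
    rw [← Finset.sum_image (f := g) hinj]
    apply Finset.sum_le_sum_of_subset_of_nonneg
    · intro k hk
      obtain ⟨b, hb, rfl⟩ := Finset.mem_image.1 hk
      have hb' : (b : ℤ) < 2 ^ j := by exact_mod_cast Finset.mem_range.1 hb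
      have ha0 : (0 : ℤ) ≤ a := by positivity
      have hb0 : (0 : ℤ) ≤ b := by positivity
      rw [Finset.mem_Ico]
      constructor
      · linarith
      · have : (κ + 2) * 2 ^ j = κ * 2 ^ j + 2 ^ j + 2 ^ j := by ring
        rw [this]
        linarith
    · intro k _ _
      exact hg k
  calc _ ≤ ∑ a ∈ range (2 ^ j), ∑ k ∈ Ico (κ * 2 ^ j) ((κ + 2) * 2 ^ j), g k :=
        Finset.sum_le_sum h
    _ = _ := by
        rw [Finset.sum_const, Finset.card_range, nsmul_eq_mul]
        push_cast
        ring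

open Classical in
theorem pf_UNI (hL : T_L2N) : T_UNI := by
  intro T
  obtain ⟨C, hC, hL⟩ := hL T
  refine ⟨(T + 1) * C, by positivity, ?_⟩
  intro ι θ _ _ J q G Q P chk hyp
  have hq : 0 < q := lt_of_lt_of_le one_pos hyp.q1
  -- the property
  set W : ℕ → ℕ → ℕ → Prop := fun j a b => chk j (a / 2 ^ j) (b / 2 ^ j) ∧
      Good (cc T) q Q P j (((a / 2 ^ j : ℕ) : ℤ) + ((b / 2 ^ j : ℕ) : ℤ)) ∧
      ∃ t ≤ T, 1 / q < ‖DD (P.str j) G j (((a / 2 ^ j : ℕ) : ℤ) + ((b / 2 ^ j : ℕ) : ℤ)) t
        ((a : ℤ) + b)‖ with hW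
  -- the bound for one scale
  have hone : ∀ j ∈ range (J + 1), ∑ a ∈ range (2 ^ J), ∑ b ∈ range (2 ^ J),
      (if W j a b then (1 : ℝ) else 0) ≤
      (T + 1) * C / q ^ 60 * ((4 : ℝ) ^ j * ∑ p ∈ range (2 ^ (J - j)), ∑ s ∈ range (2 ^ (J - j)),
        (if chk j p s then 1 else 0)) := by
    intro j hj
    have hj' : j ≤ J := Nat.lt_succ_iff.1 (Finset.mem_range.1 hj)
    have hp2 : 0 < 2 ^ j := by positivity
    -- one square
    have hsq : ∀ p s : ℕ, ∑ a ∈ range (2 ^ j), ∑ b ∈ range (2 ^ j),
        (if W j (p * 2 ^ j + a) (s * 2 ^ j + b) then (1 : ℝ) else 0) ≤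
        (if chk j p s then (T + 1) * C / q ^ 60 * (4 : ℝ) ^ j else 0) := by
      intro p s
      have hdiv : ∀ p a : ℕ, a ∈ range (2 ^ j) → (p * 2 ^ j + a) / 2 ^ j = p := by
        intro p a ha
        rw [Nat.add_comm, Nat.add_mul_div_right _ _ hp2,
          Nat.div_eq_of_lt (Finset.mem_range.1 ha), Nat.zero_add]
      by_cases hc : chk j p s ∧ Good (cc T) q Q P j ((p : ℤ) + s)
      · rw [if_pos hc.1]
        set g : ℕ → ℤ → ℝ := fun t k => ‖DD (P.str j) G j ((p : ℤ) + s) t k‖ ^ 2 with hg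
        have hpt : ∀ a ∈ range (2 ^ j), ∀ b ∈ range (2 ^ j),
            (if W j (p * 2 ^ j + a) (s * 2 ^ j + b) then (1 : ℝ) else 0) ≤
            ∑ t ∈ range (T + 1), q ^ 2 * g t (((p : ℤ) + s) * 2 ^ j + a + b) := by
          intro a ha b hb
          have hnn : ∀ t ∈ range (T + 1), 0 ≤ q ^ 2 * g t (((p : ℤ) + s) * 2 ^ j + a + b) := by
            intro t _
            positivity
          by_cases hw : W j (p * 2 ^ j + a) (s * 2 ^ j + b)
          · rw [if_pos hw]
            obtain ⟨-, -, t, htT, ht⟩ := hw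
            rw [hdiv p a ha, hdiv s b hb] at ht
            have hk : (((p * 2 ^ j + a : ℕ) : ℤ) + ((s * 2 ^ j + b : ℕ) : ℤ)) =
                ((p : ℤ) + s) * 2 ^ j + a + b := by
              push_cast
              ring
            rw [hk] at ht
            have h1 : (1 : ℝ) ≤ q ^ 2 * g t (((p : ℤ) + s) * 2 ^ j + a + b) := by
              have h2 : 1 ≤ q * ‖DD (P.str j) G j ((p : ℤ) + s) t
                  (((p : ℤ) + s) * 2 ^ j + a + b)‖ := by
                rw [div_lt_iff₀ hq] at ht
                linarith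
              have h3 : 1 ≤ (q * ‖DD (P.str j) G j ((p : ℤ) + s) t
                  (((p : ℤ) + s) * 2 ^ j + a + b)‖) ^ 2 := one_le_pow₀ h2
              rw [mul_pow] at h3
              exact h3
            exact h1.trans (Finset.single_le_sum hnn (Finset.mem_range.2 (Nat.lt_succ_of_le htT)))
          · rw [if_neg hw]
            exact Finset.sum_nonneg hnn
        calc ∑ a ∈ range (2 ^ j), ∑ b ∈ range (2 ^ j),
              (if W j (p * 2 ^ j + a) (s * 2 ^ j + b) then (1 : ℝ) else 0)
            ≤ ∑ a ∈ range (2 ^ j), ∑ b ∈ range (2 ^ j),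
              ∑ t ∈ range (T + 1), q ^ 2 * g t (((p : ℤ) + s) * 2 ^ j + a + b) :=
              Finset.sum_le_sum fun a ha => Finset.sum_le_sum fun b hb => hpt a ha b hb
          _ = ∑ t ∈ range (T + 1), q ^ 2 * ∑ a ∈ range (2 ^ j), ∑ b ∈ range (2 ^ j),
              g t (((p : ℤ) + s) * 2 ^ j + a + b) := by
              rw [Finset.sum_congr rfl (fun a _ => Finset.sum_comm), Finset.sum_comm]
              apply Finset.sum_congr rfl
              intro t _
              rw [Finset.mul_sum]
              apply Finset.sum_congr rfl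
              intro a _
              rw [Finset.mul_sum]
          _ ≤ ∑ t ∈ range (T + 1), q ^ 2 * (2 ^ j * (C * 2 ^ j / q ^ 62)) := by
              apply Finset.sum_le_sum
              intro t ht
              have htT : t ≤ T := Nat.lt_succ_iff.1 (Finset.mem_range.1 ht)
              have h1 := uni_square (g t) (fun k => by positivity) j ((p : ℤ) + s)
              have h2 := hL ι θ J q G Q P hyp j ((p : ℤ) + s) t hj' htT hc.2
              have h3 : (2 : ℝ) ^ j * ∑ k ∈ Ico (((p : ℤ) + s) * 2 ^ j)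
                  ((((p : ℤ) + s) + 2) * 2 ^ j), g t k ≤ 2 ^ j * (C * 2 ^ j / q ^ 62) :=
                mul_le_mul_of_nonneg_left h2 (by positivity)
              exact mul_le_mul_of_nonneg_left (h1.trans h3) (by positivity)
          _ = (T + 1) * C / q ^ 60 * (4 : ℝ) ^ j := by
              rw [Finset.sum_const, Finset.card_range, nsmul_eq_mul]
              have h4 : (4 : ℝ) ^ j = 2 ^ j * 2 ^ j := by
                rw [← mul_pow]; norm_num
              rw [h4]
              have h62 : q ^ 62 = q ^ 60 * q ^ 2 := by ring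
              rw [h62]
              push_cast
              field_simp
      · have hz : ∑ a ∈ range (2 ^ j), ∑ b ∈ range (2 ^ j),
            (if W j (p * 2 ^ j + a) (s * 2 ^ j + b) then (1 : ℝ) else 0) = 0 := by
          apply Finset.sum_eq_zero
          intro a ha
          apply Finset.sum_eq_zero
          intro b hb
          rw [if_neg]
          intro hw
          obtain ⟨h1, h2, -⟩ := hw
          rw [hdiv p a ha, hdiv s b hb] at h1 h2
          exact hc ⟨h1, h2⟩
        rw [hz]
        split_ifs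
        · positivity
        · exact le_rfl
    calc ∑ a ∈ range (2 ^ J), ∑ b ∈ range (2 ^ J), (if W j a b then (1 : ℝ) else 0)
        = ∑ p ∈ range (2 ^ (J - j)), ∑ s ∈ range (2 ^ (J - j)), ∑ a ∈ range (2 ^ j),
          ∑ b ∈ range (2 ^ j), (if W j (p * 2 ^ j + a) (s * 2 ^ j + b) then (1 : ℝ) else 0) := by
          rw [uni_range_pow _ j J hj']
          apply Finset.sum_congr rfl
          intro p _
          rw [Finset.sum_comm' (s := range (2 ^ (J - j))) (t := fun _ => range (2 ^ j))
            (t' := range (2 ^ j)) (s' := fun _ => range (2 ^ (J - j))) (by intro x y; tauto)]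
          apply Finset.sum_congr rfl
          intro a _
          exact uni_range_pow (fun b => if W j (p * 2 ^ j + a) b then (1 : ℝ) else 0) j J hj'
      _ ≤ ∑ p ∈ range (2 ^ (J - j)), ∑ s ∈ range (2 ^ (J - j)),
          (if chk j p s then (T + 1) * C / q ^ 60 * (4 : ℝ) ^ j else 0) :=
          Finset.sum_le_sum fun p _ => Finset.sum_le_sum fun s _ => hsq p s
      _ = _ := by
          rw [← mul_assoc, Finset.mul_sum]
          apply Finset.sum_congr rfl
          intro p _
          rw [Finset.mul_sum]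
          apply Finset.sum_congr rfl
          intro s _
          split_ifs <;> ring
  -- the union bound
  have hcard : (((range (2 ^ J) ×ˢ range (2 ^ J)).filter
      (fun ab : ℕ × ℕ => ∃ j ≤ J, W j ab.1 ab.2)).card : ℝ) ≤
      ∑ j ∈ range (J + 1), ∑ a ∈ range (2 ^ J), ∑ b ∈ range (2 ^ J),
        (if W j a b then (1 : ℝ) else 0) := by
    rw [← Finset.sum_boole]
    have h1 : ∀ ab ∈ range (2 ^ J) ×ˢ range (2 ^ J),
        (if ∃ j ≤ J, W j ab.1 ab.2 then (1 : ℝ) else 0) ≤
        ∑ j ∈ range (J + 1), (if W j ab.1 ab.2 then (1 : ℝ) else 0) := by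
      intro ab _
      have hnn : ∀ j ∈ range (J + 1), (0 : ℝ) ≤ (if W j ab.1 ab.2 then (1 : ℝ) else 0) := by
        intro j _
        split_ifs <;> norm_num
      by_cases hw : ∃ j ≤ J, W j ab.1 ab.2
      · rw [if_pos hw]
        obtain ⟨j, hj, hw⟩ := hw
        have h2 := Finset.single_le_sum hnn (Finset.mem_range.2 (Nat.lt_succ_of_le hj))
        rw [if_pos hw] at h2
        exact h2
      · rw [if_neg hw]
        exact Finset.sum_nonneg hnn
    refine (Finset.sum_le_sum h1).trans (le_of_eq ?_)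
    rw [Finset.sum_comm]
    apply Finset.sum_congr rfl
    intro j _
    rw [Finset.sum_product]
  refine hcard.trans ((Finset.sum_le_sum hone).trans (le_of_eq ?_))
  rw [← Finset.mul_sum]

end Pool.Agent.H78.BOU
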