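import Pool.Agent.H31.BOU.Targets1
import Pool.Agent.H31.BOU.Targets2
import Pool.Agent.H31.BOU.Targets3

/-!
Row STN of the board bou_modules: the structured part at one node.
-/

namespace Pool.Agent.H78.BOU

open Finset Pool.Agent.H31.BOU

theorem stn_ee_add (s t : ℝ) : ee (s + t) = ee s * ee t := by
  rw [ee, ee, ee, ← Complex.exp_add]
  congr 1
  push_cast
  ring

theorem stn_norm_ee (t : ℝ) : ‖ee t‖ = 1 := by
  rw [ee, Complex.norm_exp_ofReal_mul_I]

theorem stn_ee_int (n : ℤ) : ee (n : ℝ) = 1 := by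
  rw [ee]
  have : ((2 * Real.pi * (n : ℝ) : ℝ) : ℂ) * Complex.I = n * (2 * Real.pi * Complex.I) := by
    push_cast
    ring
  rw [this, Complex.exp_int_mul_two_pi_mul_I]

theorem stn_ee_sub_one (t : ℝ) : ‖ee t - 1‖ ≤ 8 * |t| := by
  have h := @Real.norm_exp_I_mul_ofReal_sub_one_le (2 * Real.pi * t)
  have h1 : ee t = Complex.exp (Complex.I * ((2 * Real.pi * t : ℝ) : ℂ)) := by
    rw [ee, mul_comm]
  rw [h1]
  refine h.trans ?_
  rw [Real.norm_eq_abs, abs_mul, abs_mul]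
  have hpi : |Real.pi| ≤ 4 := by
    rw [abs_of_pos Real.pi_pos]
    exact Real.pi_le_four
  have h2 : |(2 : ℝ)| = 2 := abs_of_pos (by norm_num)
  rw [h2]
  nlinarith [abs_nonneg t]

theorem stn_close (θ : ℝ) (v k : ℤ) :
    ‖ee (θ * (v : ℝ)) - ee (θ * (k : ℝ))‖ ≤ 8 * nd θ * |((v - k : ℤ) : ℝ)| := by
  have h1 : ee (θ * (v : ℝ)) = ee (θ * (k : ℝ)) * ee ((θ - round θ) * ((v - k : ℤ) : ℝ)) := by
    rw [← stn_ee_add]
    have : θ * (v : ℝ) = (θ * (k : ℝ) + (θ - round θ) * ((v - k : ℤ) : ℝ)) +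
        ((round θ * (v - k) : ℤ) : ℝ) := by
      push_cast
      ring
    rw [this, stn_ee_add, stn_ee_int, mul_one]
  rw [h1]
  have h2 : ee (θ * (k : ℝ)) * ee ((θ - round θ) * ((v - k : ℤ) : ℝ)) - ee (θ * (k : ℝ)) =
      ee (θ * (k : ℝ)) * (ee ((θ - round θ) * ((v - k : ℤ) : ℝ)) - 1) := by ring
  rw [h2, norm_mul, stn_norm_ee, one_mul]
  refine (stn_ee_sub_one _).trans (le_of_eq ?_)
  rw [abs_mul, nd, mul_assoc]

theorem stn_image (x : ℤ) (n : ℕ) : Ico x (x + n) = (range n).image (fun b : ℕ => x + (b : ℤ)) := by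
  ext v
  rw [Finset.mem_Ico, Finset.mem_image]
  constructor
  · rintro ⟨h1, h2⟩
    refine ⟨(v - x).toNat, ?_, ?_⟩
    · rw [Finset.mem_range]; omega
    · omega
  · rintro ⟨b, hb, rfl⟩
    rw [Finset.mem_range] at hb
    omega

theorem stn_geo (hG : T_GEO) (θ : ℝ) (x : ℤ) (n : ℕ) :
    ‖∑ b ∈ range n, ee (θ * ((x + b : ℤ) : ℝ))‖ * (2 * nd θ) ≤ 1 := by
  have h := (hG θ x (x + n) (by omega)).2
  rw [stn_image, Finset.sum_image] at h
  · exact h
  · intro a _ b _ hab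
    have : x + (a : ℤ) = x + b := hab
    omega

/-- The average over the node, frequencies far apart. -/
theorem stn_far (hG : T_GEO) (θ μ : ℝ) (x : ℤ) (j : ℕ) (hμ : 0 < μ)
    (h : 1 / μ ≤ 2 ^ j * nd θ) :
    ‖∑ a ∈ range (2 ^ j), ∑ b ∈ range (2 ^ j), ee (θ * ((x + a + b : ℤ) : ℝ))‖ ≤ 4 ^ j * μ := by
  have hp : (0 : ℝ) < 2 ^ j := by positivity
  have hnd : 0 < nd θ := by
    have : 0 < 2 ^ j * nd θ := lt_of_lt_of_le (by positivity) h
    exact (mul_pos_iff_of_pos_left hp).1 this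
  have h1 : ∀ a ∈ range (2 ^ j), ‖∑ b ∈ range (2 ^ j), ee (θ * ((x + a + b : ℤ) : ℝ))‖ ≤
      2 ^ j * μ := by
    intro a _
    have h2 := stn_geo hG θ (x + a) (2 ^ j)
    have h3 : ‖∑ b ∈ range (2 ^ j), ee (θ * ((x + a + b : ℤ) : ℝ))‖ ≤ 1 / (2 * nd θ) := by
      rw [le_div_iff₀ (by positivity)]
      exact h2
    refine h3.trans ?_
    rw [div_le_iff₀ (by positivity)]
    rw [div_le_iff₀ hμ] at h
    nlinarith
  refine (norm_sum_le _ _).trans ((Finset.sum_le_sum h1).trans (le_of_eq ?_))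
  rw [Finset.sum_const, Finset.card_range, nsmul_eq_mul]
  have h4 : (4 : ℝ) ^ j = 2 ^ j * 2 ^ j := by
    rw [← mul_pow]; norm_num
  rw [h4]
  push_cast
  ring

/-- The average over the node, frequencies close. -/
theorem stn_near (θ μ : ℝ) (x k : ℤ) (j : ℕ) (M : ℝ) (hM : 0 ≤ M)
    (hk : ∀ v : ℤ, x ≤ v → v < x + 2 * 2 ^ j → |((v - k : ℤ) : ℝ)| ≤ M * 2 ^ j)
    (h : 2 ^ j * nd θ ≤ μ) :
    ‖∑ a ∈ range (2 ^ j), ∑ b ∈ range (2 ^ j), ee (θ * ((x + a + b : ℤ) : ℝ)) -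
      4 ^ j * ee (θ * (k : ℝ))‖ ≤ 4 ^ j * (8 * M * μ) := by
  have h4 : (4 : ℝ) ^ j = 2 ^ j * 2 ^ j := by
    rw [← mul_pow]; norm_num
  have h4c : (4 : ℂ) ^ j = 2 ^ j * 2 ^ j := by
    rw [← mul_pow]; norm_num
  have hs : ∑ a ∈ range (2 ^ j), ∑ b ∈ range (2 ^ j), ee (θ * ((x + a + b : ℤ) : ℝ)) -
      4 ^ j * ee (θ * (k : ℝ)) = ∑ a ∈ range (2 ^ j), ∑ b ∈ range (2 ^ j),
        (ee (θ * ((x + a + b : ℤ) : ℝ)) - ee (θ * (k : ℝ))) := by
    simp only [Finset.sum_sub_distrib, Finset.sum_const, Finset.card_range, nsmul_eq_mul]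
    push_cast
    rw [h4c]
    ring
  rw [hs]
  have hnd : 0 ≤ nd θ := abs_nonneg _
  have h1 : ∀ a ∈ range (2 ^ j), ‖∑ b ∈ range (2 ^ j),
      (ee (θ * ((x + a + b : ℤ) : ℝ)) - ee (θ * (k : ℝ)))‖ ≤ 2 ^ j * (8 * M * μ) := by
    intro a ha
    have h2 : ∀ b ∈ range (2 ^ j), ‖ee (θ * ((x + a + b : ℤ) : ℝ)) - ee (θ * (k : ℝ))‖ ≤
        8 * M * μ := by
      intro b hb
      have ha' : (a : ℤ) < 2 ^ j := by exact_mod_cast Finset.mem_range.1 ha
      have hb' : (b : ℤ) < 2 ^ j := by exact_mod_cast Finset.mem_range.1 hb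
      have h3 := stn_close θ (x + a + b) k
      have h5 := hk (x + a + b) (by linarith [Int.natCast_nonneg a, Int.natCast_nonneg b])
        (by linarith)
      refine h3.trans ?_
      calc 8 * nd θ * |((x + a + b - k : ℤ) : ℝ)| ≤ 8 * nd θ * (M * 2 ^ j) :=
            mul_le_mul_of_nonneg_left h5 (by positivity)
        _ = 8 * M * (2 ^ j * nd θ) := by ring
        _ ≤ 8 * M * μ := mul_le_mul_of_nonneg_left h (by positivity)
    refine (norm_sum_le _ _).trans ((Finset.sum_le_sum h2).trans (le_of_eq ?_))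
    rw [Finset.sum_const, Finset.card_range, nsmul_eq_mul]
    push_cast
    ring
  refine (norm_sum_le _ _).trans ((Finset.sum_le_sum h1).trans (le_of_eq ?_))
  rw [Finset.sum_const, Finset.card_range, nsmul_eq_mul, h4]
  push_cast
  ring

open Classical in
/-- On the window of the node, the structured part is the sum over the long pieces. -/
theorem stn_str {ι : Type} [Fintype ι] (P : Fam ι) (r j : ℕ) (κ v : ℤ) (hr : 1 ≤ r)
    (hml : ∀ i, meets r (P.sc i) (P.mm i) j κ → long r (P.sc i) (P.mm i) j κ)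
    (h1 : (κ - r) * 2 ^ j ≤ v) (h2 : v < (κ + r) * 2 ^ j) :
    P.str j v = ∑ i, if long r (P.sc i) (P.mm i) j κ then P.co i * ee (P.be i * (v : ℝ)) else 0 := by
  rw [Fam.str]
  apply Finset.sum_congr rfl
  intro i _
  have hiff : (j ≤ P.sc i ∧ v ∈ blk (P.sc i) (P.mm i)) ↔ long r (P.sc i) (P.mm i) j κ := by
    constructor
    · rintro ⟨h3, h4⟩
      rw [blk, Finset.mem_Ico] at h4
      exact hml i ⟨h3, lt_of_le_of_lt h4.1 h2, lt_of_le_of_lt h1 h4.2⟩
    · rintro ⟨h3, h4⟩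
      refine ⟨?_, ?_⟩
      · by_contra hcon
        have hlt : P.sc i < j := not_le.1 hcon
        have h5 : (2 : ℤ) ^ P.sc i ≤ 2 ^ j := pow_le_pow_right₀ (by norm_num) hlt.le
        have hr' : (1 : ℤ) ≤ r := by exact_mod_cast hr
        have h6 : (κ + r) * 2 ^ j - (κ - r) * 2 ^ j ≤ 2 ^ P.sc i := by
          have : (P.mm i + 1) * 2 ^ P.sc i = P.mm i * 2 ^ P.sc i + 2 ^ P.sc i := by ring
          linarith
        have h7 : (κ + r) * 2 ^ j - (κ - r) * 2 ^ j = 2 * r * 2 ^ j := by ring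
        have hp : (0 : ℤ) < 2 ^ j := by positivity
        nlinarith
      · rw [blk, Finset.mem_Ico]
        exact ⟨h3.trans h1, lt_of_lt_of_le h2 h4⟩
  rw [if_congr hiff rfl rfl]

open Classical in
/-- The double average of a structured function. -/
theorem stn_DD {ι : Type} [Fintype ι] (P : Fam ι) (G : ℤ → ℂ) (r j : ℕ) (κ k : ℤ) (t : ℕ)
    (hr : 1 ≤ r) (htr : t + 8 ≤ r)
    (hk1 : κ * 2 ^ j ≤ k) (hk2 : k < (κ + 2) * 2 ^ j)
    (hml : ∀ i, meets r (P.sc i) (P.mm i) j κ → long r (P.sc i) (P.mm i) j κ) :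
    DD (P.str j) G j κ t k = ∑ i, if long r (P.sc i) (P.mm i) j κ then
      P.co i * ee (2 * P.be i * (k : ℝ)) * ph G (P.be i) j (κ - t) else 0 := by
  rw [DD]
  have hp : (0 : ℤ) < 2 ^ j := by positivity
  have htr' : (t : ℤ) + 8 ≤ r := by exact_mod_cast htr
  have ht0 : (0 : ℤ) ≤ t := Int.natCast_nonneg t
  have hF : ∀ a ∈ range (2 ^ j), ∀ b ∈ range (2 ^ j),
      G ((κ - t) * 2 ^ j + a + b) * P.str j (2 * k - ((κ - t) * 2 ^ j + a + b)) =
      ∑ i, if long r (P.sc i) (P.mm i) j κ then P.co i * ee (2 * P.be i * (k : ℝ)) *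
        (G ((κ - t) * 2 ^ j + a + b) *
          ee (-(P.be i * (((κ - t) * 2 ^ j + a + b : ℤ) : ℝ)))) else 0 := by
    intro a ha b hb
    have ha' : (a : ℤ) < 2 ^ j := by exact_mod_cast Finset.mem_range.1 ha
    have hb' : (b : ℤ) < 2 ^ j := by exact_mod_cast Finset.mem_range.1 hb
    have ha0 := Int.natCast_nonneg a
    have hb0 := Int.natCast_nonneg b
    rw [stn_str P r j κ _ hr hml (by nlinarith) (by nlinarith), Finset.mul_sum]
    apply Finset.sum_congr rfl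
    intro i _
    by_cases hl : long r (P.sc i) (P.mm i) j κ
    · rw [if_pos hl, if_pos hl]
      have he : ee (P.be i * ((2 * k - ((κ - t) * 2 ^ j + a + b) : ℤ) : ℝ)) =
          ee (2 * P.be i * (k : ℝ)) * ee (-(P.be i * (((κ - t) * 2 ^ j + a + b : ℤ) : ℝ))) := by
        rw [← stn_ee_add]
        congr 1
        push_cast
        ring
      rw [he]
      ring
    · rw [if_neg hl, if_neg hl, mul_zero]
  rw [Finset.sum_congr rfl (fun a ha => Finset.sum_congr rfl (fun b hb => hF a ha b hb))]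
  rw [Finset.sum_congr rfl (fun a _ => Finset.sum_comm), Finset.sum_comm, Finset.sum_div]
  apply Finset.sum_congr rfl
  intro i _
  by_cases hl : long r (P.sc i) (P.mm i) j κ
  · simp only [if_pos hl]
    rw [ph, ← mul_div_assoc]
    congr 1
    rw [Finset.mul_sum]
    apply Finset.sum_congr rfl
    intro a _
    rw [Finset.mul_sum]
  · simp only [if_neg hl, Finset.sum_const_zero, zero_div]

/-- The hat average of a function with small Fourier coefficients. -/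
theorem stn_hat (hH : T_HAT) (hW : T_WIN) (H : ℤ → ℂ) (j : ℕ) (m : ℤ) (s Z B β : ℝ)
    (hs : 0 ≤ s) (hZ : 0 ≤ Z) (hB : 1 ≤ B)
    (hcf : ∀ m, ∀ a < 2 ^ j, ‖cf H j m a‖ ≤ s)
    (hb : ∀ v : ℤ, m * 2 ^ j ≤ v → v < (m + 2) * 2 ^ j → ‖H v‖ ≤ Z) :
    ‖∑ a ∈ range (2 ^ j), ∑ b ∈ range (2 ^ j),
      H (m * 2 ^ j + a + b) * ee (-(β * ((m * 2 ^ j + a + b : ℤ) : ℝ)))‖ ≤
    4 ^ j * (4 * (s * (6 + 4 * Real.log B) + 4 * Z / Real.sqrt B)) := by
  have h1 := hH.1 (fun v => H v * ee (-(β * (v : ℝ)))) j (m * 2 ^ j)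
  have h1' : ∑ a ∈ range (2 ^ j), ∑ b ∈ range (2 ^ j),
      H (m * 2 ^ j + a + b) * ee (-(β * ((m * 2 ^ j + a + b : ℤ) : ℝ))) =
      4 ^ j * ∑ v ∈ Ico (m * 2 ^ j) (m * 2 ^ j + 2 ^ (j + 1)),
        (hat j (v - m * 2 ^ j) : ℂ) * (H v * ee (-(β * (v : ℝ)))) := h1
  rw [h1', norm_mul]
  have hn4 : ‖(4 : ℂ) ^ j‖ = 4 ^ j := by
    rw [norm_pow]; norm_num
  rw [hn4]
  apply mul_le_mul_of_nonneg_left _ (by positivity)
  have hp : (0 : ℤ) < 2 ^ j := by positivity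
  have hblk : Ico (m * 2 ^ j) (m * 2 ^ j + 2 ^ (j + 1)) = blk j m ∪ blk j (m + 1) := by
    rw [blk, blk, Finset.Ico_union_Ico_eq_Ico (by nlinarith) (by nlinarith)]
    congr 1
    ring
  have hdis : Disjoint (blk j m) (blk j (m + 1)) := by
    rw [blk, blk]
    exact Finset.Ico_disjoint_Ico_consecutive _ _ _
  rw [hblk, Finset.sum_union hdis]
  set R : ℝ := s * (6 + 4 * Real.log B) + 4 * Z / Real.sqrt B with hR
  have hwin : ∀ m' : ℤ, (m' = m ∨ m' = m + 1) → ‖∑ v ∈ blk j m',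
      (hat j (v - m * 2 ^ j) : ℂ) * (H v * ee (-(β * (v : ℝ))))‖ ≤ 2 * R := by
    intro m' hm'
    have h2 := hW H j m' (fun v => hat j (v - m * 2 ^ j)) s Z B (1 / 2 ^ j) (1 / 4 ^ j) β hs hZ hB
      (by positivity) (by positivity) (fun a ha => hcf m' a ha) ?_ ?_ ?_
    · have h3 : ∑ v ∈ blk j m', (hat j (v - m * 2 ^ j) : ℂ) * (H v * ee (-(β * (v : ℝ)))) =
          ∑ v ∈ blk j m', (hat j (v - m * 2 ^ j) : ℂ) * H v * ee (-(β * (v : ℝ))) := by
        apply Finset.sum_congr rfl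
        intro v _
        ring
      rw [h3]
      refine h2.trans (le_of_eq ?_)
      have h4 : (4 : ℝ) ^ j = 2 ^ j * 2 ^ j := by
        rw [← mul_pow]; norm_num
      have h5 : ((1 : ℝ) / 2 ^ j + 1 / 4 ^ j * 2 ^ j) * 2 ^ j = 2 := by
        rw [h4]
        field_simp
        norm_num
      rw [h5]
    · intro v hv
      rw [blk, Finset.mem_Ico] at hv
      apply hb v
      · rcases hm' with rfl | rfl
        · exact hv.1
        · nlinarith [hv.1]
      · rcases hm' with rfl | rfl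
        · nlinarith [hv.2]
        · have : (m + 1 + 1) * 2 ^ j = (m + 2) * 2 ^ j := by ring
          linarith [hv.2]
    · intro v _
      obtain ⟨h3, h4, -, -⟩ := hH.2.1 j (v - m * 2 ^ j)
      rw [abs_of_nonneg h3]
      exact h4
    · intro v _ _
      obtain ⟨-, -, h5, -⟩ := hH.2.1 j (v - m * 2 ^ j)
      have : v + 1 - m * 2 ^ j = v - m * 2 ^ j + 1 := by ring
      show |hat j (v + 1 - m * 2 ^ j) - hat j (v - m * 2 ^ j)| ≤ 1 / 4 ^ j
      rw [this]
      exact h5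
  refine (norm_add_le _ _).trans ?_
  have e1 := hwin m (Or.inl rfl)
  have e2 := hwin (m + 1) (Or.inr rfl)
  linarith

theorem stn_alg (a b c d : ℂ) (hd : d ≠ 0) : (a + b) / d - c = (a + (b - d * c)) / d := by
  field_simp
  ring

open Classical in
/-- The average of `G` at the node, for one frequency. -/
theorem stn_ph (hH : T_HAT) (hW : T_WIN) (hG : T_GEO) {θ : Type} [Fintype θ] (G : ℤ → ℂ)
    (Q : Fam θ) (r j : ℕ) (κ k : ℤ) (t : ℕ) (s μ Y B β M : ℝ) (hr : 1 ≤ r) (htr : t + 8 ≤ r)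
    (hk1 : κ * 2 ^ j ≤ k) (hk2 : k < (κ + 2) * 2 ^ j) (hG1 : ∀ v, ‖G v‖ ≤ 1)
    (hs : 0 ≤ s) (hμ : 0 < μ) (hB : 1 ≤ B) (hY0 : 0 ≤ Y) (hM : (t : ℝ) + 2 ≤ M)
    (hcf : ∀ m, ∀ a < 2 ^ j, ‖cf (fun v => G v - Q.str j v) j m a‖ ≤ s)
    (hml : ∀ u, meets r (Q.sc u) (Q.mm u) j κ → long r (Q.sc u) (Q.mm u) j κ)
    (hY : ∑ u ∈ univ.filter (fun u => long r (Q.sc u) (Q.mm u) j κ), ‖Q.co u‖ ≤ Y)
    (hsep : ∀ u, long r (Q.sc u) (Q.mm u) j κ →
      2 ^ j * nd (Q.be u - β) ≤ μ ∨ 1 / μ ≤ 2 ^ j * nd (Q.be u - β)) :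
    ‖ph G β j (κ - t) - ∑ u, (if long r (Q.sc u) (Q.mm u) j κ ∧ 2 ^ j * nd (Q.be u - β) ≤ μ then
      Q.co u * ee ((Q.be u - β) * (k : ℝ)) else 0)‖ ≤
    4 * (s * (6 + 4 * Real.log B) + 4 * (1 + Y) / Real.sqrt B) + Y * (8 * M * μ) := by
  have hp : (0 : ℤ) < 2 ^ j := by positivity
  have htr' : (t : ℤ) + 8 ≤ r := by exact_mod_cast htr
  have ht0 : (0 : ℤ) ≤ t := Int.natCast_nonneg t
  have hM0 : 0 ≤ M := by
    have : (0 : ℝ) ≤ t := Nat.cast_nonneg t
    linarith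
  have hM1 : 1 ≤ 8 * M := by
    have : (0 : ℝ) ≤ t := Nat.cast_nonneg t
    linarith
  set x : ℤ := (κ - t) * 2 ^ j with hx
  -- the structured part on the support
  have hstr : ∀ v : ℤ, x ≤ v → v < (κ - t + 2) * 2 ^ j → Q.str j v =
      ∑ u, if long r (Q.sc u) (Q.mm u) j κ then Q.co u * ee (Q.be u * (v : ℝ)) else 0 := by
    intro v h1 h2
    apply stn_str Q r j κ v hr hml
    · rw [hx] at h1
      nlinarith
    · nlinarith
  have hHn : ∀ v : ℤ, x ≤ v → v < (κ - t + 2) * 2 ^ j → ‖G v - Q.str j v‖ ≤ 1 + Y := by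
    intro v h1 h2
    refine (norm_sub_le _ _).trans (add_le_add (hG1 v) ?_)
    rw [hstr v h1 h2]
    refine (norm_sum_le _ _).trans (le_trans (le_of_eq ?_) hY)
    rw [Finset.sum_filter]
    apply Finset.sum_congr rfl
    intro u _
    split_ifs
    · rw [norm_mul, stn_norm_ee, mul_one]
    · exact norm_zero
  -- the first part
  have hA := stn_hat hH hW (fun v => G v - Q.str j v) j (κ - t) s (1 + Y) B β hs (by positivity)
    hB hcf hHn
  rw [← hx] at hA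
  -- decomposition
  have hdec : ∑ a ∈ range (2 ^ j), ∑ b ∈ range (2 ^ j),
      G (x + a + b) * ee (-(β * ((x + a + b : ℤ) : ℝ))) =
      ∑ a ∈ range (2 ^ j), ∑ b ∈ range (2 ^ j),
        (G (x + a + b) - Q.str j (x + a + b)) * ee (-(β * ((x + a + b : ℤ) : ℝ))) +
      ∑ u, (if long r (Q.sc u) (Q.mm u) j κ then Q.co u *
        ∑ a ∈ range (2 ^ j), ∑ b ∈ range (2 ^ j),
          ee ((Q.be u - β) * ((x + a + b : ℤ) : ℝ)) else 0) := by
    have h1 : ∑ u, (if long r (Q.sc u) (Q.mm u) j κ then Q.co u *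
        ∑ a ∈ range (2 ^ j), ∑ b ∈ range (2 ^ j),
          ee ((Q.be u - β) * ((x + a + b : ℤ) : ℝ)) else 0) =
        ∑ a ∈ range (2 ^ j), ∑ b ∈ range (2 ^ j), ∑ u,
          (if long r (Q.sc u) (Q.mm u) j κ then Q.co u *
            ee ((Q.be u - β) * ((x + a + b : ℤ) : ℝ)) else 0) := by
      rw [Finset.sum_congr rfl (fun a _ => Finset.sum_comm), Finset.sum_comm]
      apply Finset.sum_congr rfl
      intro u _
      by_cases hl : long r (Q.sc u) (Q.mm u) j κ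
      · simp only [if_pos hl, Finset.mul_sum]
      · simp only [if_neg hl, Finset.sum_const_zero]
    rw [h1, ← Finset.sum_add_distrib]
    apply Finset.sum_congr rfl
    intro a ha
    rw [← Finset.sum_add_distrib]
    apply Finset.sum_congr rfl
    intro b hb
    have ha' : (a : ℤ) < 2 ^ j := by exact_mod_cast Finset.mem_range.1 ha
    have hb' : (b : ℤ) < 2 ^ j := by exact_mod_cast Finset.mem_range.1 hb
    have ha0 := Int.natCast_nonneg a
    have hb0 := Int.natCast_nonneg b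
    have h2 := hstr (x + a + b) (by linarith) (by rw [hx]; nlinarith)
    have h3 : ∑ u, (if long r (Q.sc u) (Q.mm u) j κ then Q.co u *
            ee ((Q.be u - β) * ((x + a + b : ℤ) : ℝ)) else 0) =
        Q.str j (x + a + b) * ee (-(β * ((x + a + b : ℤ) : ℝ))) := by
      rw [h2, Finset.sum_mul]
      apply Finset.sum_congr rfl
      intro u _
      split_ifs
      · rw [mul_assoc, ← stn_ee_add]
        congr 2
        ring
      · rw [zero_mul]
    rw [h3]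
    ring
  have hph : ph G β j (κ - t) = (∑ a ∈ range (2 ^ j), ∑ b ∈ range (2 ^ j),
      G (x + a + b) * ee (-(β * ((x + a + b : ℤ) : ℝ)))) / 4 ^ j := rfl
  have h4pos : (0 : ℝ) < 4 ^ j := by positivity
  have h4ne : (4 : ℂ) ^ j ≠ 0 := pow_ne_zero _ (by norm_num)
  have hn4 : ‖(4 : ℂ) ^ j‖ = 4 ^ j := by
    rw [norm_pow]; norm_num
  -- one frequency of Q
  have hone : ∀ u, ‖(if long r (Q.sc u) (Q.mm u) j κ then Q.co u *
        ∑ a ∈ range (2 ^ j), ∑ b ∈ range (2 ^ j),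
          ee ((Q.be u - β) * ((x + a + b : ℤ) : ℝ)) else 0) -
      4 ^ j * (if long r (Q.sc u) (Q.mm u) j κ ∧ 2 ^ j * nd (Q.be u - β) ≤ μ then
        Q.co u * ee ((Q.be u - β) * (k : ℝ)) else 0)‖ ≤
      (if long r (Q.sc u) (Q.mm u) j κ then ‖Q.co u‖ else 0) * (4 ^ j * (8 * M * μ)) := by
    intro u
    by_cases hl : long r (Q.sc u) (Q.mm u) j κ
    · rw [if_pos hl, if_pos hl]
      by_cases hc : 2 ^ j * nd (Q.be u - β) ≤ μ
      · rw [if_pos ⟨hl, hc⟩]
        have h1 := stn_near (Q.be u - β) μ x k j M hM0 ?_ hc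
        · have h2 : Q.co u * ∑ a ∈ range (2 ^ j), ∑ b ∈ range (2 ^ j),
              ee ((Q.be u - β) * ((x + a + b : ℤ) : ℝ)) -
              4 ^ j * (Q.co u * ee ((Q.be u - β) * (k : ℝ))) =
              Q.co u * (∑ a ∈ range (2 ^ j), ∑ b ∈ range (2 ^ j),
              ee ((Q.be u - β) * ((x + a + b : ℤ) : ℝ)) - 4 ^ j * ee ((Q.be u - β) * (k : ℝ))) := by
            ring
          rw [h2, norm_mul]
          exact mul_le_mul_of_nonneg_left h1 (norm_nonneg _)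
        · intro v hv1 hv2
          have hpR : (0 : ℝ) < 2 ^ j := by positivity
          have e1 : v - k ≤ (t + 2) * 2 ^ j := by
            rw [hx] at hv2
            nlinarith
          have e2 : -((t + 2) * 2 ^ j) ≤ v - k := by
            rw [hx] at hv1
            nlinarith
          have e3 : ((v - k : ℤ) : ℝ) ≤ ((t : ℝ) + 2) * 2 ^ j := by exact_mod_cast e1
          have e4 : -(((t : ℝ) + 2) * 2 ^ j) ≤ ((v - k : ℤ) : ℝ) := by exact_mod_cast e2
          refine (abs_le.2 ⟨e4, e3⟩).trans ?_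
          exact mul_le_mul_of_nonneg_right hM hpR.le
      · rw [if_neg (fun h => hc h.2), mul_zero, sub_zero, norm_mul]
        apply mul_le_mul_of_nonneg_left _ (norm_nonneg _)
        have hfar : 1 / μ ≤ 2 ^ j * nd (Q.be u - β) := (hsep u hl).resolve_left hc
        refine (stn_far hG (Q.be u - β) μ x j hμ hfar).trans ?_
        apply mul_le_mul_of_nonneg_left _ h4pos.le
        nlinarith
    · rw [if_neg hl, if_neg hl, if_neg (fun h => hl h.1), mul_zero, sub_zero, norm_zero, zero_mul]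
  have hsumY : ∑ u, (if long r (Q.sc u) (Q.mm u) j κ then ‖Q.co u‖ else 0) ≤ Y := by
    rw [← Finset.sum_filter]
    exact hY
  have hfin : ph G β j (κ - t) - ∑ u, (if long r (Q.sc u) (Q.mm u) j κ ∧
      2 ^ j * nd (Q.be u - β) ≤ μ then Q.co u * ee ((Q.be u - β) * (k : ℝ)) else 0) =
      ((∑ a ∈ range (2 ^ j), ∑ b ∈ range (2 ^ j),
        (G (x + a + b) - Q.str j (x + a + b)) * ee (-(β * ((x + a + b : ℤ) : ℝ)))) +
      ∑ u, ((if long r (Q.sc u) (Q.mm u) j κ then Q.co u *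
        ∑ a ∈ range (2 ^ j), ∑ b ∈ range (2 ^ j),
          ee ((Q.be u - β) * ((x + a + b : ℤ) : ℝ)) else 0) -
      4 ^ j * (if long r (Q.sc u) (Q.mm u) j κ ∧ 2 ^ j * nd (Q.be u - β) ≤ μ then
        Q.co u * ee ((Q.be u - β) * (k : ℝ)) else 0))) / 4 ^ j := by
    rw [hph, hdec, Finset.sum_sub_distrib, ← Finset.mul_sum]
    exact stn_alg _ _ _ _ h4ne
  rw [hfin, norm_div, hn4, div_le_iff₀ h4pos]
  refine (norm_add_le _ _).trans ?_
  have hB2 : ‖∑ u, ((if long r (Q.sc u) (Q.mm u) j κ then Q.co u *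
        ∑ a ∈ range (2 ^ j), ∑ b ∈ range (2 ^ j),
          ee ((Q.be u - β) * ((x + a + b : ℤ) : ℝ)) else 0) -
      4 ^ j * (if long r (Q.sc u) (Q.mm u) j κ ∧ 2 ^ j * nd (Q.be u - β) ≤ μ then
        Q.co u * ee ((Q.be u - β) * (k : ℝ)) else 0))‖ ≤ Y * (4 ^ j * (8 * M * μ)) := by
    refine (norm_sum_le _ _).trans ((Finset.sum_le_sum fun u _ => hone u).trans ?_)
    rw [← Finset.sum_mul]
    exact mul_le_mul_of_nonneg_right hsumY (by positivity)
  have hA' : ‖∑ a ∈ range (2 ^ j), ∑ b ∈ range (2 ^ j),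
        (G (x + a + b) - Q.str j (x + a + b)) * ee (-(β * ((x + a + b : ℤ) : ℝ)))‖ ≤
      4 ^ j * (4 * (s * (6 + 4 * Real.log B) + 4 * (1 + Y) / Real.sqrt B)) := hA
  calc _ ≤ 4 ^ j * (4 * (s * (6 + 4 * Real.log B) + 4 * (1 + Y) / Real.sqrt B)) +
        Y * (4 ^ j * (8 * M * μ)) := add_le_add hA' hB2
    _ = _ := by ring

open Classical in
theorem pf_STN (hH : T_HAT) (hW : T_WIN) (hG : T_GEO) : T_STN := by
  intro T
  refine ⟨8 * (T + 2), by positivity, ?_⟩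
  intro ι θ _ _ G Q P j κ k t s μ X Y B htT hk1 hk2 hG1 hs hμ hμ1 hB hX0 hY0 hcf hmlP hmlQ hX hY
    hsep
  have hr : 1 ≤ rr T := by unfold rr; omega
  have htr : t + 8 ≤ rr T := by unfold rr; omega
  have htT' : (t : ℝ) ≤ T := by exact_mod_cast htT
  have hT0 : (0 : ℝ) ≤ T := Nat.cast_nonneg T
  rw [stn_DD P G (rr T) j κ k t hr htr hk1 hk2 hmlP, ← Finset.sum_sub_distrib]
  set R : ℝ := s * (6 + 4 * Real.log B) + 4 * (1 + Y) / Real.sqrt B with hR
  have hR0 : 0 ≤ R := by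
    have := Real.log_nonneg hB
    positivity
  have hone : ∀ i, ‖(if long (rr T) (P.sc i) (P.mm i) j κ then
      P.co i * ee (2 * P.be i * (k : ℝ)) * ph G (P.be i) j (κ - t) else 0) -
      ∑ u, (if long (rr T) (P.sc i) (P.mm i) j κ ∧
      long (rr T) (Q.sc u) (Q.mm u) j κ ∧ 2 ^ j * nd (Q.be u - P.be i) ≤ μ then
      P.co i * Q.co u * ee ((P.be i + Q.be u) * (k : ℝ)) else 0)‖ ≤
      (if long (rr T) (P.sc i) (P.mm i) j κ then ‖P.co i‖ else 0) *
        (4 * R + Y * (8 * (T + 2) * μ)) := by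
    intro i
    by_cases hl : long (rr T) (P.sc i) (P.mm i) j κ
    · rw [if_pos hl, if_pos hl]
      have h1 := stn_ph hH hW hG G Q (rr T) j κ k t s μ Y B (P.be i) (T + 2) hr htr hk1 hk2 hG1 hs
        hμ hB hY0 (by linarith) hcf hmlQ hY (fun u hu => hsep i u hl hu)
      have h2 : ∑ u, (if long (rr T) (P.sc i) (P.mm i) j κ ∧
          long (rr T) (Q.sc u) (Q.mm u) j κ ∧ 2 ^ j * nd (Q.be u - P.be i) ≤ μ then
          P.co i * Q.co u * ee ((P.be i + Q.be u) * (k : ℝ)) else 0) =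
          P.co i * ee (2 * P.be i * (k : ℝ)) * ∑ u, (if long (rr T) (Q.sc u) (Q.mm u) j κ ∧
            2 ^ j * nd (Q.be u - P.be i) ≤ μ then
            Q.co u * ee ((Q.be u - P.be i) * (k : ℝ)) else 0) := by
        rw [Finset.mul_sum]
        apply Finset.sum_congr rfl
        intro u _
        by_cases hu : long (rr T) (Q.sc u) (Q.mm u) j κ ∧ 2 ^ j * nd (Q.be u - P.be i) ≤ μ
        · rw [if_pos hu, if_pos ⟨hl, hu.1, hu.2⟩]
          have h3 : ee ((P.be i + Q.be u) * (k : ℝ)) =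
              ee (2 * P.be i * (k : ℝ)) * ee ((Q.be u - P.be i) * (k : ℝ)) := by
            rw [← stn_ee_add]
            congr 1
            ring
          rw [h3]
          ring
        · rw [if_neg hu, if_neg (fun h => hu h.2), mul_zero]
      rw [h2, ← mul_sub, norm_mul, norm_mul, stn_norm_ee, mul_one]
      exact mul_le_mul_of_nonneg_left h1 (norm_nonneg _)
    · rw [if_neg hl, if_neg hl, zero_mul]
      rw [Finset.sum_eq_zero (fun u _ => if_neg (fun h => hl h.1)), sub_zero, norm_zero]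
  refine (norm_sum_le _ _).trans ((Finset.sum_le_sum fun i _ => hone i).trans ?_)
  rw [← Finset.sum_mul, ← Finset.sum_filter]
  have h5 : 0 ≤ 4 * R + Y * (8 * (T + 2) * μ) := by positivity
  refine (mul_le_mul_of_nonneg_right hX h5).trans ?_
  have h6 : X * R * 4 ≤ X * R * (8 * (T + 2)) := by
    apply mul_le_mul_of_nonneg_left _ (by positivity)
    linarith
  calc X * (4 * R + Y * (8 * (T + 2) * μ)) = X * R * 4 + 8 * (T + 2) * X * Y * μ := by ring
    _ ≤ X * R * (8 * (T + 2)) + 8 * (T + 2) * X * Y * μ := by linarith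
    _ = _ := by ring

end Pool.Agent.H78.BOU
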